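import Pool.Agent.Helper93.PL.St

/-!
Project PL (MP_d466de_nt), module SZR: sizes of the values.
-/

set_option autoImplicit false

namespace Pool.Agent.Helper76.PL

open Pool.Agent.Helper61.PV Finset

theorem hSzr (hSiz : StSiz) : Pool.Agent.Helper93.PL.StSzr := by
  intro W H d m R κ δ F A h hW hH hκ hκ1 hδ hδ2 hcond hm hbound a ha
  obtain ⟨_, _, hc3, hc4⟩ := hcond
  have hWr : (1:ℝ) ≤ W := by exact_mod_cast hW
  have hW0 : (0:ℝ) < W := by linarith
  have hHr : (1:ℝ) ≤ H := by exact_mod_cast hH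
  have hH0 : (0:ℝ) < H := by linarith
  have hκH : 0 < κ * H := by positivity
  have h8 : 0 < 8 / κ := by positivity
  have hm1 : (1:ℝ) < m := by linarith
  have hd0 : (0:ℝ) ≤ d := Nat.cast_nonneg d
  have hR0 : (0:ℝ) ≤ R := Nat.cast_nonneg R
  -- `2 R W ≤ κ H / 2`
  have hWR : (W:ℝ) * (2 * R) ≤ κ * H / 2 := by
    have h1 : 4 * (R : ℝ) * (d + 1) * W ≤ 2 * δ * (κ * H) := by
      have := mul_le_mul_of_nonneg_right hbound hW0.le
      have e : 2 * δ * (κ * H / W) * W = 2 * δ * (κ * H) := by field_simp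
      rw [e] at this
      exact this
    have h2 : 0 ≤ 4 * (R : ℝ) * d * W := by positivity
    have h3 : 4 * (R : ℝ) * (d + 1) * W = 4 * (R : ℝ) * d * W + 2 * (W * (2 * R)) := by ring
    have h4 : 2 * δ * (κ * H) ≤ 1 * (κ * H) := by
      apply mul_le_mul_of_nonneg_right _ hκH.le
      linarith
    linarith
  have hκH1 : κ * H ≤ H := by
    have : κ * H ≤ 1 * H := mul_le_mul_of_nonneg_right hκ1.le hH0.le
    linarith
  -- the coefficients
  have hco : ∀ i, |((lin (W:ℤ) F a i : ℤ) : ℝ)| ≤ 2 * (H:ℝ) := by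
    intro i
    obtain ⟨h1, h2⟩ := ha i
    obtain ⟨h3, h4⟩ := hc3 i
    have h1r : (A i : ℝ) - 2 * R ≤ a i := by
      have : ((A i - (2 * R : ℕ) : ℤ) : ℝ) ≤ ((a i : ℤ) : ℝ) := by exact_mod_cast h1
      push_cast at this
      exact this
    have h2r : (a i : ℝ) + 1 ≤ A i + h i + 2 * R := by
      have h2' : a i + 1 ≤ A i + h i + (2 * R : ℕ) := by omega
      have : ((a i + 1 : ℤ) : ℝ) ≤ ((A i + h i + (2 * R : ℕ) : ℤ) : ℝ) := by exact_mod_cast h2'
      push_cast at this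
      exact this
    have h3r : -(H:ℝ) ≤ F i + W * A i := by exact_mod_cast h3
    have h4r : (F i : ℝ) + W * (A i + h i - 1) ≤ H := by exact_mod_cast h4
    have h5 : (W:ℝ) * (A i - 2 * R) ≤ W * a i := mul_le_mul_of_nonneg_left h1r hW0.le
    have h6 : (W:ℝ) * (a i + 1) ≤ W * (A i + h i + 2 * R) := mul_le_mul_of_nonneg_left h2r hW0.le
    unfold lin
    push_cast
    rw [abs_le]
    constructor
    · linarith
    · linarith
  have hla : (κ / 2) * (H:ℝ) ≤ ((lin (W:ℤ) F a (Fin.last d) : ℤ) : ℝ) := by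
    obtain ⟨h1, _⟩ := ha (Fin.last d)
    have h1r : (A (Fin.last d) : ℝ) - 2 * R ≤ a (Fin.last d) := by
      have : ((A (Fin.last d) - (2 * R : ℕ) : ℤ) : ℝ) ≤ ((a (Fin.last d) : ℤ) : ℝ) := by exact_mod_cast h1
      push_cast at this
      exact this
    have h5 : (W:ℝ) * (A (Fin.last d) - 2 * R) ≤ W * a (Fin.last d) :=
      mul_le_mul_of_nonneg_left h1r hW0.le
    unfold lin
    push_cast at hc4 ⊢
    linarith
  have h48 : 1 + 4 / (κ / 2) ≤ (m:ℝ) := by
    have : 4 / (κ / 2) = 8 / κ := by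
      field_simp
      norm_num
    rw [this]
    exact hm
  obtain ⟨s1, s2⟩ := hSiz d m (lin (W:ℤ) F a) (H:ℝ) (κ / 2) (by linarith) (by linarith) hH0.le
    hco hla h48
  refine ⟨?_, ?_⟩
  · refine le_trans (le_of_eq ?_) s1
    ring
  · refine le_trans s2 (le_of_eq ?_)
    ring

end Pool.Agent.Helper76.PL
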